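import Pool.Agent.Helper2.FX.StG

/-!
# Project FX, chapter T, module TLP: local products are tame
-/

set_option autoImplicit false

namespace Pool.Agent.Helper30.FX

open Set Metric Pool.Agent.Helper84.FX Pool.Agent.Helper2.FX

theorem hTLP : StTLC → StTLU → StTLB → StTLP := by
  intro hC hU hB E _ G _ _ M g hM
  obtain ⟨hcont, hloc⟩ := hM
  refine hU E G M g {O : Set E | IsOpen O ∧ ((∀ x ∈ M ∩ O, g x ≠ 0) ∨
    ∃ W : Set E, IsOpen W ∧ O ⊆ W ∧ PCh (M ∩ W) g)} hcont ?_ ?_ ?_ ?_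
  · intro O hO
    exact hO.1
  · rintro O ⟨hO, h⟩ O' ⟨hO', h'⟩
    refine ⟨hO.inter hO', ?_⟩
    rcases h with h | ⟨W, hW, hOW, hP⟩
    · left
      intro x hx
      exact h x ⟨hx.1, hx.2.1⟩
    · right
      exact ⟨W, hW, fun x hx => hOW hx.1, hP⟩
  · intro x hx
    by_cases hg : g x = 0
    · obtain ⟨W, hW, hxW, hP⟩ := hloc x hx hg
      exact ⟨W, ⟨hW, Or.inr ⟨W, hW, subset_rfl, hP⟩⟩, hxW⟩
    · obtain ⟨u, hu, hEq⟩ := continuousOn_iff'.1 hcont ({0}ᶜ) isOpen_compl_singleton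
      have hxu : x ∈ u ∩ M := by
        rw [← hEq]
        exact ⟨hg, hx⟩
      refine ⟨u, ⟨hu, Or.inl ?_⟩, hxu.1⟩
      intro y hy
      have hy' : y ∈ g ⁻¹' {0}ᶜ ∩ M := by
        rw [hEq]
        exact ⟨hy.2, hy.1⟩
      exact hy'.1
  · rintro O ⟨hO, h | ⟨W, hW, hOW, hP⟩⟩
    · exact hC.1 E G (M ∩ O) g (hcont.mono inter_subset_left) h
    · have h1 := hB E G (M ∩ W) g hP O hO
      have h2 : (M ∩ W) ∩ O = M ∩ O := by
        ext x
        constructor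
        · rintro ⟨⟨h1, _⟩, h3⟩
          exact ⟨h1, h3⟩
        · rintro ⟨h1, h3⟩
          exact ⟨⟨h1, hOW h3⟩, h3⟩
      rw [h2] at h1
      exact h1

end Pool.Agent.Helper30.FX
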