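import Pool.Agent.Helper84.FX.StX

/-!
# Project FX, chapter T, module Y00: the fibre `t = 0` is contractible
-/

set_option autoImplicit false

namespace Pool.Agent.Helper30.FX

open Pool.Agent.Helper84.FX Pool.Agent.Helper72.FX Set

noncomputable section

private def sgf (p : Fin 12 → ℂ) : ℂ := p 3 * p 10 + p 8 * p 11 + p 4 - p 0 * p 1

private def bf (p : Fin 12 → ℂ) : ℂ := (p 3 + p 2 ^ 2 + p 4 * p 5 + sgf p * p 6) / 2

private def yf (p : Fin 12 → ℂ) : ℂ :=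
  p 8 - p 6 * p 5 * (kz (p 2) (bf p) 0) ^ 2 + p 7 +
    sgf p * (2 * p 6 * kz (p 2) (bf p) 0 * p 9 + p 4 * p 9 ^ 2)

private def ff (p : Fin 12 → ℂ) : Fin 2 ⊕ Fin 12 → ℂ :=
  Sum.elim ![p 0, p 1]
    ![p 2, bf p, 0, p 4, p 5, sgf p, p 6, p 7, yf p, p 9, p 10, p 11]

private def e1f (y : Fin 2 ⊕ Fin 12 → ℂ) : ℂ :=
  2 * y (Sum.inr 1) - y (Sum.inr 0) ^ 2 - y (Sum.inr 3) * y (Sum.inr 4) -
    y (Sum.inr 5) * y (Sum.inr 6)

private def e2f (y : Fin 2 ⊕ Fin 12 → ℂ) : ℂ :=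
  y (Sum.inr 6) * y (Sum.inr 4) * (kz (y (Sum.inr 0)) (y (Sum.inr 1)) 0) ^ 2 +
    (y (Sum.inr 8) - y (Sum.inr 7)) -
    y (Sum.inr 5) * (2 * y (Sum.inr 6) * kz (y (Sum.inr 0)) (y (Sum.inr 1)) 0 * y (Sum.inr 9) +
      y (Sum.inr 3) * y (Sum.inr 9) ^ 2)

private def gf (y : Fin 2 ⊕ Fin 12 → ℂ) : Fin 12 → ℂ :=
  ![y (Sum.inl 0), y (Sum.inl 1), y (Sum.inr 0), e1f y, y (Sum.inr 3), y (Sum.inr 4),
    y (Sum.inr 6), y (Sum.inr 7), e2f y, y (Sum.inr 9), y (Sum.inr 10), y (Sum.inr 11)]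

private theorem FF_zero (z : Fin 12 → ℂ) (h : z 2 = 0) :
    FF z = (2 * z 1 - z 0 ^ 2 - z 3 * z 4 - z 5 * z 6) * z 10 +
      (z 6 * z 4 * (kz (z 0) (z 1) 0) ^ 2 + (z 8 - z 7) -
        z 5 * (2 * z 6 * kz (z 0) (z 1) 0 * z 9 + z 3 * z 9 ^ 2)) * z 11 - (z 5 - z 3) := by
  unfold FF E1 E2 kappa nu
  rw [h]
  ring

private theorem cont_kz (h : StKSM) :
    Continuous (fun q : ℂ × ℂ × ℂ => kz q.1 q.2.1 q.2.2) := h.2.2.1.continuous

private theorem cont_sgf : Continuous sgf := by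
  unfold sgf
  fun_prop

private theorem cont_bf : Continuous bf := by
  have h := cont_sgf
  unfold bf
  fun_prop

private theorem cont_kf (h : StKSM) : Continuous (fun p : Fin 12 → ℂ => kz (p 2) (bf p) 0) := by
  have hb := cont_bf
  have hm : Continuous (fun p : Fin 12 → ℂ => ((p 2, bf p, (0 : ℂ)) : ℂ × ℂ × ℂ)) := by
    fun_prop
  have h3 := (cont_kz h).comp hm
  simp only [Function.comp_def] at h3
  exact h3

private theorem cont_yf (h : StKSM) : Continuous yf := by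
  have h1 := cont_sgf
  have h2 := cont_kf h
  unfold yf
  fun_prop

private theorem cont_ff (h : StKSM) : Continuous ff := by
  have h1 := cont_sgf
  have h2 := cont_bf
  have h3 := cont_yf h
  refine continuous_pi fun i => ?_
  rcases i with i | i
  · fin_cases i
    · exact continuous_apply 0
    · exact continuous_apply 1
  · fin_cases i
    · exact continuous_apply 2
    · exact h2
    · exact continuous_const
    · exact continuous_apply 4
    · exact continuous_apply 5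
    · exact h1
    · exact continuous_apply 6
    · exact continuous_apply 7
    · exact h3
    · exact continuous_apply 9
    · exact continuous_apply 10
    · exact continuous_apply 11

private theorem cont_gk (h : StKSM) : Continuous
    (fun y : Fin 2 ⊕ Fin 12 → ℂ => kz (y (Sum.inr 0)) (y (Sum.inr 1)) 0) := by
  have hm : Continuous (fun y : Fin 2 ⊕ Fin 12 → ℂ =>
      ((y (Sum.inr 0), y (Sum.inr 1), (0 : ℂ)) : ℂ × ℂ × ℂ)) := by
    fun_prop
  have h3 := (cont_kz h).comp hm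
  simp only [Function.comp_def] at h3
  exact h3

private theorem cont_e1f : Continuous e1f := by
  unfold e1f
  fun_prop

private theorem cont_e2f (h : StKSM) : Continuous e2f := by
  have h1 := cont_gk h
  unfold e2f
  fun_prop

private theorem cont_gf (h : StKSM) : Continuous gf := by
  have h1 := cont_e1f
  have h2 := cont_e2f h
  refine continuous_pi fun i => ?_
  fin_cases i
  · exact continuous_apply (Sum.inl 0)
  · exact continuous_apply (Sum.inl 1)
  · exact continuous_apply (Sum.inr 0)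
  · exact h1
  · exact continuous_apply (Sum.inr 3)
  · exact continuous_apply (Sum.inr 4)
  · exact continuous_apply (Sum.inr 6)
  · exact continuous_apply (Sum.inr 7)
  · exact h2
  · exact continuous_apply (Sum.inr 9)
  · exact continuous_apply (Sum.inr 10)
  · exact continuous_apply (Sum.inr 11)

private theorem ff_mem (hE : StEV) (p : Fin 12 → ℂ) :
    ff p ∈ {y | y ∈ YY FP ∧ tY y = 0} := by
  refine ⟨?_, rfl⟩
  show ff p (Sum.inl 0) * ff p (Sum.inl 1) =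
    MvPolynomial.eval (fun j => ff p (Sum.inr j)) FP
  rw [hE, FF_zero _ rfl]
  show p 0 * p 1 = (2 * bf p - p 2 ^ 2 - p 4 * p 5 - sgf p * p 6) * p 10 +
      (p 6 * p 5 * (kz (p 2) (bf p) 0) ^ 2 + (yf p - p 7) -
        sgf p * (2 * p 6 * kz (p 2) (bf p) 0 * p 9 + p 4 * p 9 ^ 2)) * p 11 - (sgf p - p 4)
  have hb : 2 * bf p = p 3 + p 2 ^ 2 + p 4 * p 5 + sgf p * p 6 := by
    unfold bf
    ring
  have hy : yf p = p 8 - p 6 * p 5 * (kz (p 2) (bf p) 0) ^ 2 + p 7 +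
    sgf p * (2 * p 6 * kz (p 2) (bf p) 0 * p 9 + p 4 * p 9 ^ 2) := rfl
  have hs : sgf p = p 3 * p 10 + p 8 * p 11 + p 4 - p 0 * p 1 := rfl
  rw [hb, hy]
  linear_combination hs

private theorem gf_ff (p : Fin 12 → ℂ) : gf (ff p) = p := by
  have h1 : e1f (ff p) = p 3 := by
    show 2 * bf p - p 2 ^ 2 - p 4 * p 5 - sgf p * p 6 = p 3
    unfold bf
    ring
  have h2 : e2f (ff p) = p 8 := by
    show p 6 * p 5 * (kz (p 2) (bf p) 0) ^ 2 + (yf p - p 7) -
      sgf p * (2 * p 6 * kz (p 2) (bf p) 0 * p 9 + p 4 * p 9 ^ 2) = p 8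
    unfold yf
    ring
  funext i
  fin_cases i
  · rfl
  · rfl
  · rfl
  · exact h1
  · rfl
  · rfl
  · rfl
  · rfl
  · exact h2
  · rfl
  · rfl
  · rfl

private theorem ff_gf (hE : StEV) (y : Fin 2 ⊕ Fin 12 → ℂ)
    (hy : y ∈ {y | y ∈ YY FP ∧ tY y = 0}) : ff (gf y) = y := by
  obtain ⟨h1, h2⟩ := hy
  have h1' : y (Sum.inl 0) * y (Sum.inl 1) =
      MvPolynomial.eval (fun j => y (Sum.inr j)) FP := h1
  have h2' : y (Sum.inr 2) = 0 := h2
  rw [hE, FF_zero _ h2'] at h1'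
  have hs : sgf (gf y) = y (Sum.inr 5) := by
    show e1f y * y (Sum.inr 10) + e2f y * y (Sum.inr 11) + y (Sum.inr 3) -
      y (Sum.inl 0) * y (Sum.inl 1) = y (Sum.inr 5)
    rw [h1']
    unfold e1f e2f
    ring
  have hb : bf (gf y) = y (Sum.inr 1) := by
    show (e1f y + y (Sum.inr 0) ^ 2 + y (Sum.inr 3) * y (Sum.inr 4) +
      sgf (gf y) * y (Sum.inr 6)) / 2 = y (Sum.inr 1)
    rw [hs]
    unfold e1f
    ring
  have hyf : yf (gf y) = y (Sum.inr 8) := by
    show e2f y - y (Sum.inr 6) * y (Sum.inr 4) * (kz (y (Sum.inr 0)) (bf (gf y)) 0) ^ 2 +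
      y (Sum.inr 7) + sgf (gf y) * (2 * y (Sum.inr 6) * kz (y (Sum.inr 0)) (bf (gf y)) 0 *
        y (Sum.inr 9) + y (Sum.inr 3) * y (Sum.inr 9) ^ 2) = y (Sum.inr 8)
    rw [hb, hs]
    unfold e2f
    ring
  funext i
  rcases i with i | i
  · fin_cases i
    · rfl
    · rfl
  · fin_cases i
    · rfl
    · exact hb
    · exact h2'.symm
    · rfl
    · rfl
    · exact hs
    · rfl
    · rfl
    · exact hyf
    · rfl
    · rfl
    · rfl

private theorem wc_univ (hA : StWCA) : WC (univ : Set (Fin 12 → ℂ)) := by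
  refine hA.1 (Fin 12 → ℂ) univ 0 (fun q => (1 - q.1 : ℝ) • q.2) (mem_univ _) ⟨?_, ?_⟩ ?_ ?_
  · apply Continuous.continuousOn
    fun_prop
  · intro q _
    exact mem_univ _
  · intro x _
    simp
  · intro x _
    simp

private theorem wc_zero (hA : StWCA) : WC {t : ℂ | t = 0} := by
  refine hA.1 ℂ {t : ℂ | t = 0} 0 (fun q => q.2) rfl ⟨continuous_snd.continuousOn, ?_⟩ ?_ ?_
  · rintro ⟨s, x⟩ hx
    exact hx.2
  · intro x _
    rfl
  · intro x hx
    exact hx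

theorem hY00 : StWCG → StWCA → StEV → StKSM → StY00 := by
  intro hG hA hE hK
  have h1 : WE (univ : Set (Fin 12 → ℂ)) {y | y ∈ YY FP ∧ tY y = 0} ff :=
    hG.2.1 (Fin 12 → ℂ) (Fin 2 ⊕ Fin 12 → ℂ) univ _ ff gf
      ⟨(cont_ff hK).continuousOn, fun p _ => ff_mem hE p⟩
      ⟨(cont_gf hK).continuousOn, fun _ _ => mem_univ _⟩
      (fun p _ => gf_ff p) (fun y hy => ff_gf hE y hy)
  have h2 : WC {y | y ∈ YY FP ∧ tY y = 0} :=
    hA.2.2.2.1 (Fin 12 → ℂ) (Fin 2 ⊕ Fin 12 → ℂ) univ _ ff h1 (wc_univ hA)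
  refine hA.2.1 (Fin 2 ⊕ Fin 12 → ℂ) ℂ _ _ tY h2 (wc_zero hA) ⟨?_, ?_⟩
  · exact (continuous_apply (Sum.inr 2)).continuousOn
  · intro y hy
    exact hy.2

end

end Pool.Agent.Helper30.FX
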